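import Pool.Agent.H94.UG.Ko

/-!
# The embedding `Ψ` given by the Koszul fields
-/

set_option autoImplicit false

open MvPolynomial

namespace Pool.Agent.H94.UG

open Pool.Agent.H47.UG

variable {K : Type} [Field K] {n d : ℕ} {F : HP K n} (T : FF d F)

theorem psi_delta (s : ℕ) (v : T.L) : T.ψ (T.δ s v) = ∑ pq, C (T.Ko pq v) * X (s, pq) := by
  have key : ∀ pq, T.Ko pq v = ∑ l : Fin n, T.Dt pq l.succ.castSucc * T.par l v := by
    intro pq
    unfold FF.Ko
    rw [sum_der]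
    rfl
  unfold FF.δ FF.ψ
  rw [map_sum]
  simp only [map_mul, aeval_X, key, map_sum, Finset.sum_mul, Finset.mul_sum]
  rw [Finset.sum_comm]
  refine Finset.sum_congr rfl fun pq _ => Finset.sum_congr rfl fun l _ => ?_
  rw [show (aeval fun p : ℕ × Fin n => ∑ pq, C (T.Dt pq p.2.succ.castSucc) * X (p.1, pq)) (C (T.par l v)) =
    (C (T.par l v) : T.ZZ) from aeval_C _ _]
  ring

/-- Shape of the monomials. -/
def Shape (n k m q : ℕ) (b : ℕ × (Fin (n + 2) × Fin (n + 2)) →₀ ℕ) : Prop :=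
  (∀ p ∈ b.support, p.1 < k) ∧
    Finsupp.weight (fun p : ℕ × (Fin (n + 2) × Fin (n + 2)) => p.1 + 1) b = m ∧ b.degree = q

/-- Polynomials of the given shape with coefficients in `O(e)`. -/
noncomputable def SS (k : ℕ) (e : ℤ) (m q : ℕ) (i : Fin (n + 2)) : Submodule K T.ZZ where
  carrier := {w | ∀ b, (coeff b w ≠ 0 → Shape n k m q b) ∧ coeff b w ∈ T.OO e i}
  zero_mem' := by
    intro b
    simp
  add_mem' := by
    intro v w hv hw b
    refine ⟨fun h => ?_, ?_⟩
    · rw [coeff_add] at h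
      by_cases h1 : coeff b v = 0
      · exact (hw b).1 (by rwa [h1, zero_add] at h)
      · exact (hv b).1 h1
    · rw [coeff_add]
      exact add_mem (hv b).2 (hw b).2
  smul_mem' := by
    intro c v hv b
    refine ⟨fun h => ?_, ?_⟩
    · refine (hv b).1 fun h1 => h ?_
      rw [coeff_smul, h1, smul_zero]
    · rw [coeff_smul]
      exact Submodule.smul_mem _ _ (hv b).2

theorem mem_SS_monomial {k : ℕ} {e : ℤ} {m q : ℕ} {i : Fin (n + 2)}
    {b : ℕ × (Fin (n + 2) × Fin (n + 2)) →₀ ℕ} (hb : Shape n k m q b) {c : T.L} (hc : c ∈ T.OO e i) :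
    monomial b c ∈ SS T k e m q i := by
  classical
  intro b'
  rw [coeff_monomial]
  split_ifs with h
  · subst h
    exact ⟨fun _ => hb, hc⟩
  · exact ⟨fun h => absurd rfl h, zero_mem _⟩

variable [CharZero K] (hF : Nice d F)

include hF

theorem psi_GG (k : ℕ) (e : ℤ) (m q : ℕ) (i : Fin (n + 2)) (v : T.BB) (hv : v ∈ T.GG k e m q i) :
    T.ψ v ∈ SS T k (e + ((d : ℤ) - 2) * q) m q i := by
  unfold FF.GG at hv
  induction hv using Submodule.span_induction with
  | zero =>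
    rw [map_zero]
    exact zero_mem _
  | add v w _ _ hv hw =>
    rw [map_add]
    exact add_mem hv hw
  | smul c v _ hv =>
    rw [← algebraMap_smul T.L c v, map_smul, algebraMap_smul]
    exact Submodule.smul_mem _ _ hv
  | mem v hv =>
    obtain ⟨a, ha, s, l, hs, rfl⟩ := hv
    rw [map_mul, map_prod]
    simp only [psi_delta]
    rw [Finset.prod_univ_sum]
    rw [show T.ψ (C (T.x i ^ e * a)) = (C (T.x i ^ e * a) : T.ZZ) from aeval_C _ _, Finset.mul_sum]
    refine sum_mem fun f _ => ?_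
    rw [Finset.prod_mul_distrib, ← map_prod, ← mul_assoc, ← C_mul]
    have h1 : ∏ r, (X (s r, f r) : T.ZZ) =
        monomial (∑ r, Finsupp.single ((s r : ℕ), f r) 1) 1 := by
      rw [monomial_sum_one]
      rfl
    rw [h1, C_mul_monomial, mul_one]
    refine mem_SS_monomial T ⟨?_, ?_, ?_⟩ ?_
    · intro p hp
      rw [Finsupp.mem_support_iff, Finsupp.coe_finsetSum, Finset.sum_apply] at hp
      obtain ⟨r, _, hr⟩ := Finset.exists_ne_zero_of_sum_ne_zero hp
      rw [Finsupp.single_apply] at hr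
      have : ((s r : ℕ), f r) = p := by
        by_contra h
        simp [h] at hr
      rw [← this]
      exact (s r).2
    · rw [map_sum]
      simp only [Finsupp.weight_single, smul_eq_mul, one_mul]
      exact hs
    · rw [map_sum]
      simp
    · refine mul_mem_OO T ((mem_OO T _ i _).2 ⟨a, ha, rfl⟩) ?_
      exact prod_mem_OO T _ fun r => Ko_div' T hF _ _ _

end Pool.Agent.H94.UG

namespace Pool.Agent.H47.UG.FF

variable {K : Type} [Field K] [CharZero K] {n d : ℕ} {F : HP K n} (T : FF d F) (hF : Nice d F)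

include hF

theorem Ko_x (pq : Fin (n + 2) × Fin (n + 2)) (l : Fin (n + 2)) : T.Ko pq (T.x l) = T.Dt pq l :=
  Pool.Agent.H94.UG.Ko_x' T hF pq l

theorem Ko_div (_hd : 2 ≤ d) (pq : Fin (n + 2) × Fin (n + 2)) (i l : Fin (n + 2)) :
    T.Ko pq (T.x l / T.x i) ∈ T.OO ((d : ℤ) - 2) i := Pool.Agent.H94.UG.Ko_div' T hF pq i l

theorem ψ_δ (s : ℕ) (v : T.L) : T.ψ (T.δ s v) = ∑ pq, C (T.Ko pq v) * X (s, pq) :=
  Pool.Agent.H94.UG.psi_delta T s v

theorem ψ_GG (_hd : 2 ≤ d) (k : ℕ) (e : ℤ) (m q : ℕ) (i : Fin (n + 2)) (v : T.BB) (hv : v ∈ T.GG k e m q i) :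
    ∀ b, coeff b (T.ψ v) ≠ 0 → (∀ p ∈ b.support, p.1 < k) ∧
      Finsupp.weight (fun p : ℕ × (Fin (n + 2) × Fin (n + 2)) => p.1 + 1) b = m ∧ b.degree = q ∧
      coeff b (T.ψ v) ∈ T.OO (e + ((d : ℤ) - 2) * q) i := by
  intro b hb
  have h := Pool.Agent.H94.UG.psi_GG T hF k e m q i v hv b
  exact ⟨(h.1 hb).1, (h.1 hb).2.1, (h.1 hb).2.2, h.2⟩

end Pool.Agent.H47.UG.FF
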