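import Pool.Agent.H47.UG.Alg

/-!
# The dimension of the part `IP` is at most the number of monomials
-/

set_option autoImplicit false

open MvPolynomial

namespace Pool.Agent.H94.UG

open Pool.Agent.H47.UG

/-- The minors are weighted homogeneous. -/
theorem det_hom {K : Type} [Field K] {n k : ℕ} (g : Fin k → ℕ) (c : Fin n → Fin k) :
    IsWeightedHomogeneous (fun p : Fin k × Fin n => g p.1)
      (Matrix.det (Matrix.of fun l t : Fin n => (X (c t, l) : MvPolynomial (Fin k × Fin n) K)))
      (∑ t, g (c t)) := by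
  rw [Matrix.det_apply]
  refine (weightedHomogeneousSubmodule K _ _).sum_mem fun τ _ => ?_
  rw [Units.smul_def]
  refine zsmul_mem ?_ _
  rw [mem_weightedHomogeneousSubmodule]
  refine IsWeightedHomogeneous.prod _ _ _ fun t _ => ?_
  exact isWeightedHomogeneous_X K _ (c t, τ t)

/-- The generators of `IP` in the variables with orders `< k`. -/
theorem gen_hom {K : Type} [Field K] {n k p q' : ℕ} (g : Fin k → ℕ) (c : Fin p → Fin n → Fin k)
    (s : Fin q' → Fin k) (l : Fin q' → Fin n) :
    IsWeightedHomogeneous (fun p : Fin k × Fin n => g p.1)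
      ((∏ r, Matrix.det (Matrix.of fun l t : Fin n => (X (c r t, l) : MvPolynomial (Fin k × Fin n) K))) *
        ∏ r, X (s r, l r)) (∑ r, ∑ t, g (c r t) + ∑ r, g (s r)) := by
  refine IsWeightedHomogeneous.mul ?_ ?_
  · exact IsWeightedHomogeneous.prod _ _ _ fun r _ => det_hom g (c r)
  · exact IsWeightedHomogeneous.prod _ _ _ fun r _ => isWeightedHomogeneous_X K _ (s r, l r)

/-- The exponents of weight `m` and degree `q`. -/
def expo (n k m q : ℕ) : Set (Fin k × Fin n →₀ ℕ) :=
  {a | Finsupp.weight (fun p : Fin k × Fin n => (p.1 : ℕ) + 1) a = m ∧ a.degree = q}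

theorem expo_finite (n k m q : ℕ) : (expo n k m q).Finite :=
  (Finsupp.finite_of_degree_le (σ := Fin k × Fin n) q).subset fun _ ha => ha.2.le

theorem IP_le {K : Type} [Field K] (n k p m q : ℕ) : IP K n k p m q ≤
    (restrictSupport K (expo n k m q)).map
      (rename (R := K) fun a : Fin k × Fin n => ((a.1 : ℕ), a.2)).toLinearMap := by
  unfold IP
  rw [Submodule.span_le]
  rintro v ⟨c, q', s, l, h1, h2, rfl⟩
  refine ⟨(∏ r, Matrix.det (Matrix.of fun l t : Fin n => (X (c r t, l) : MvPolynomial (Fin k × Fin n) K))) *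
        ∏ r, X (s r, l r), ?_, ?_⟩
  · change _ ∈ restrictSupport K (expo n k m q)
    rw [mem_restrictSupport_iff]
    intro a ha
    have ha' := mem_support_iff.1 (Finset.mem_coe.1 ha)
    refine ⟨?_, ?_⟩
    · rw [gen_hom (fun x => (x : ℕ) + 1) c s l ha', ← h2, add_comm]
    · rw [Finsupp.degree_eq_weight_one, gen_hom (fun _ => 1) c s l ha', ← h1]
      simp [add_comm]
  · simp only [AlgHom.toLinearMap_apply, map_mul, map_prod, rename_X]
    congr 1
    refine Finset.prod_congr rfl fun r _ => ?_
    rw [AlgHom.map_det]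
    congr 1
    ext a b
    simp [Matrix.map_apply]

end Pool.Agent.H94.UG

namespace Pool.Agent.H47.UG

/-- IPD -/
theorem finrank_IP_le {K : Type} [Field K] (n k m p q : ℕ) : FiniteDimensional K (IP K n k p m q) ∧
    Module.finrank K (IP K n k p m q) ≤ monNum n k m q := by
  have hfin := (Pool.Agent.H94.UG.expo_finite n k m q).to_subtype
  have hb := basisRestrictSupport K (Pool.Agent.H94.UG.expo n k m q)
  have h1 : FiniteDimensional K (restrictSupport K (Pool.Agent.H94.UG.expo n k m q)) := Module.Finite.of_basis hb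
  have h2 := Pool.Agent.H94.UG.IP_le (K := K) n k p m q
  refine ⟨Submodule.finiteDimensional_of_le h2, ?_⟩
  refine (Submodule.finrank_mono h2).trans ((Submodule.finrank_map_le _ _).trans ?_)
  rw [Module.finrank_eq_nat_card_basis hb]
  rfl

end Pool.Agent.H47.UG
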