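import Pool.Agent.H47.UG.Ch

/-!
# The Koszul fields `F_p ∂_q - F_q ∂_p`
-/

set_option autoImplicit false

open MvPolynomial

namespace Pool.Agent.H94.UG

open Pool.Agent.H47.UG

/-- Chain rule for a polynomial in elements of an algebra with a derivation. -/
theorem der_aeval {K L ι : Type} [Field K] [Field L] [Algebra K L] [Fintype ι] (δ : Derivation K L L)
    (x : ι → L) (P : MvPolynomial ι K) : δ (aeval x P) = ∑ j, aeval x (pderiv j P) * δ (x j) := by
  classical
  induction P using MvPolynomial.induction_on with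
  | C a => simp
  | add p q hp hq => simp [hp, hq, add_mul, Finset.sum_add_distrib]
  | mul_X p i hp =>
    simp only [map_mul, aeval_X, Derivation.leibniz, hp, smul_eq_mul, pderiv_X, map_add]
    simp only [add_mul, Finset.sum_add_distrib]
    congr 1
    · rw [Finset.sum_eq_single i]
      · simp
      · intro b _ hb
        simp [Pi.single_eq_of_ne hb.symm]
      · simp
    · rw [Finset.mul_sum]
      refine Finset.sum_congr rfl fun j _ => by ring

section

variable {K : Type} [Field K] [CharZero K] {n d : ℕ} {F : HP K n} (T : FF d F) (hF : Nice d F)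

include hF

theorem F_zero : aeval T.x F = 0 := (T.ker d F hF.hom).2 dvd_rfl

theorem euler' : ∑ j, T.x j * T.fd j = 0 := by
  have h := congrArg (aeval T.x) hF.hom.sum_X_mul_pderiv
  rw [map_sum] at h
  simp only [map_mul, aeval_X, map_nsmul, F_zero T hF, smul_zero] at h
  exact h

theorem chain' (δ : Derivation K T.L T.L) : ∑ j, T.fd j * δ (T.x j) = 0 := by
  have h := der_aeval δ T.x F
  rw [F_zero T hF, map_zero] at h
  exact h.symm

theorem d_pos : 0 < d := by
  rcases Nat.eq_zero_or_pos d with h | h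
  · exfalso
    subst h
    have h1 := hF.irr
    obtain ⟨c, hc⟩ : ∃ c, F = C c := ⟨_, totalDegree_eq_zero_iff_eq_C.1 ((totalDegree_zero_iff_isHomogeneous _).2 hF.hom)⟩
    have hc0 : c ≠ 0 := by
      rintro rfl
      rw [C_0] at hc
      exact h1.ne_zero hc
    exact h1.not_isUnit (hc ▸ (isUnit_iff_ne_zero.2 hc0).map C)
  · exact h

theorem fd_ne' (j : Fin (n + 2)) : T.fd j ≠ 0 := by
  have hd := d_pos hF
  intro h
  have h1 := (T.ker (d - 1) (pderiv j F) hF.hom.pderiv).1 h
  have h2 : pderiv j F ≠ 0 := by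
    intro h3
    have h4 := congrArg (coeff (Finsupp.single j (d - 1))) h3
    rw [coeff_pderiv, coeff_zero] at h4
    have h5 : Finsupp.single j (d - 1) + Finsupp.single j 1 = Finsupp.single j d := by
      rw [← Finsupp.single_add]
      congr 1
      omega
    rw [h5] at h4
    rcases mul_eq_zero.1 h4 with h6 | h6
    · exact hF.diag j h6
    · simp only [Finsupp.single_eq_same] at h6
      exact (Nat.cast_add_one_ne_zero (d - 1)) h6
  obtain ⟨Q, hQ⟩ := h1
  have h6 : (pderiv j F).totalDegree = d - 1 := hF.hom.pderiv.totalDegree h2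
  have h7 : F ≠ 0 := hF.irr.ne_zero
  have h8 : Q ≠ 0 := by
    rintro rfl
    simp [h2] at hQ
  have h9 : (F * Q).totalDegree = F.totalDegree + Q.totalDegree := totalDegree_mul_of_isDomain h7 h8
  rw [← hQ, h6, hF.hom.totalDegree h7] at h9
  omega

theorem sum_Dt (pq : Fin (n + 2) × Fin (n + 2)) : ∑ j, T.fd j * T.Dt pq j = 0 := by
  unfold FF.Dt
  simp only [mul_sub, Finset.sum_sub_distrib]
  have h1 : ∑ j, T.fd j * (T.x j * (T.fd pq.1 * (if pq.2 = 0 then 1 else 0) )) = 0 := by
    have := euler' T hF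
    calc _ = (∑ j, T.x j * T.fd j) * (T.fd pq.1 * (if pq.2 = 0 then 1 else 0)) := by
          rw [Finset.sum_mul]
          refine Finset.sum_congr rfl fun j _ => by ring
      _ = 0 := by rw [this, zero_mul]
  have h2 : ∑ j, T.fd j * (T.x j * (T.fd pq.2 * (if pq.1 = 0 then 1 else 0) )) = 0 := by
    have := euler' T hF
    calc _ = (∑ j, T.x j * T.fd j) * (T.fd pq.2 * (if pq.1 = 0 then 1 else 0)) := by
          rw [Finset.sum_mul]
          refine Finset.sum_congr rfl fun j _ => by ring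
      _ = 0 := by rw [this, zero_mul]
  rw [h1, h2]
  simp
  ring

theorem Ko_x' (pq : Fin (n + 2) × Fin (n + 2)) (l : Fin (n + 2)) : T.Ko pq (T.x l) = T.Dt pq l := by
  have key : ∀ v : T.L, T.Ko pq v = ∑ l : Fin n, T.Dt pq l.succ.castSucc * T.par l v := by
    intro v
    unfold FF.Ko
    rw [sum_der]
    rfl
  have hmid : ∀ l' : Fin n, T.Ko pq (T.x l'.succ.castSucc) = T.Dt pq l'.succ.castSucc := by
    intro l'
    rw [key, Finset.sum_eq_single l']
    · rw [T.par_x, if_pos rfl, mul_one]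
    · intro b _ hb
      rw [T.par_x, if_neg hb, mul_zero]
    · simp
  have h0 : T.Ko pq (T.x 0) = T.Dt pq 0 := by
    rw [T.x_zero, Derivation.map_one_eq_zero]
    unfold FF.Dt
    rw [T.x_zero]
    ring
  have hlast : T.Ko pq (T.x (Fin.last (n + 1))) = T.Dt pq (Fin.last (n + 1)) := by
    have h1 := chain' T hF (T.Ko pq)
    have h2 := sum_Dt T hF pq
    rw [Fin.sum_univ_castSucc, Fin.sum_univ_succ] at h1 h2
    simp only [Fin.castSucc_zero, hmid, h0] at h1 h2
    have h3 := h1.trans h2.symm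
    exact mul_left_cancel₀ (fd_ne' T hF _) (add_left_cancel h3)
  induction l using Fin.lastCases with
  | last => exact hlast
  | cast l =>
    induction l using Fin.cases with
    | zero => exact h0
    | succ l => exact hmid l

omit [CharZero K] hF in
/-- The values of homogeneous polynomials. -/
theorem aeval_div (i : Fin (n + 2)) {s : ℕ} {P : HP K n} (hP : P.IsHomogeneous s) :
    aeval T.x P / T.x i ^ s = aeval (fun l => T.x l / T.x i) P := by
  have h1 : aeval T.x P = T.x i ^ s * aeval (fun l => T.x l / T.x i) P := by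
    rw [aeval_eq_eval₂Hom, aeval_eq_eval₂Hom]
    simp only [coe_eval₂Hom, eval₂_eq, Finset.mul_sum]
    refine Finset.sum_congr rfl fun a ha => ?_
    have h2 : a.degree = s := by
      have := hP (mem_support_iff.1 ha)
      rw [← this, Finsupp.degree_eq_weight_one]
      rfl
    have h3 : ∏ j ∈ a.support, T.x j ^ a j = T.x i ^ s * ∏ j ∈ a.support, (T.x j / T.x i) ^ a j := by
      have : T.x i ^ s = ∏ j ∈ a.support, T.x i ^ a j := by
        rw [Finset.prod_pow_eq_pow_sum, ← h2]
        rfl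
      rw [this, ← Finset.prod_mul_distrib]
      refine Finset.prod_congr rfl fun j _ => ?_
      rw [← mul_pow, mul_div_cancel₀ _ (T.x_ne i)]
    rw [h3]
    ring
  rw [h1, mul_div_cancel_left₀ _ (pow_ne_zero _ (T.x_ne i))]

omit [CharZero K] hF in
theorem aeval_div_mem (i : Fin (n + 2)) (P : HP K n) : aeval (fun l => T.x l / T.x i) P ∈ T.A i := by
  unfold FF.A
  rw [Algebra.adjoin_range_eq_range_aeval]
  exact ⟨P, rfl⟩

theorem u_mem' (i j : Fin (n + 2)) : T.u i j ∈ T.A i := by
  unfold FF.u FF.fd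
  rw [aeval_div T i hF.hom.pderiv]
  exact aeval_div_mem T i _

omit [CharZero K] hF in
theorem mem_OO (e : ℤ) (i : Fin (n + 2)) (v : T.L) : v ∈ T.OO e i ↔ ∃ a ∈ T.A i, v = T.x i ^ e * a := by
  constructor
  · intro h
    unfold FF.OO at h
    induction h using Submodule.span_induction with
    | mem v hv => exact hv
    | zero => exact ⟨0, zero_mem _, by simp⟩
    | add v w _ _ hv hw =>
      obtain ⟨a, ha, rfl⟩ := hv
      obtain ⟨b, hb, rfl⟩ := hw
      exact ⟨a + b, add_mem ha hb, by ring⟩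
    | smul c v _ hv =>
      obtain ⟨a, ha, rfl⟩ := hv
      exact ⟨c • a, (T.A i).smul_mem ha c, by rw [mul_smul_comm]⟩
  · intro h
    exact Submodule.subset_span h

omit [CharZero K] hF in
theorem mul_mem_OO {e e' : ℤ} {i : Fin (n + 2)} {v w : T.L} (hv : v ∈ T.OO e i) (hw : w ∈ T.OO e' i) :
    v * w ∈ T.OO (e + e') i := by
  obtain ⟨a, ha, rfl⟩ := (mem_OO T e i v).1 hv
  obtain ⟨b, hb, rfl⟩ := (mem_OO T e' i w).1 hw
  refine (mem_OO T _ i _).2 ⟨a * b, mul_mem ha hb, ?_⟩
  rw [zpow_add₀ (T.x_ne i)]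
  ring

omit [CharZero K] hF in
theorem prod_mem_OO {e : ℤ} {i : Fin (n + 2)} {q : ℕ} (v : Fin q → T.L) (hv : ∀ r, v r ∈ T.OO e i) :
    ∏ r, v r ∈ T.OO (e * q) i := by
  induction q with
  | zero =>
    refine (mem_OO T _ i _).2 ⟨1, one_mem _, ?_⟩
    simp
  | succ q ih =>
    rw [Fin.prod_univ_succ]
    have h := mul_mem_OO T (hv 0) (ih (fun r => v r.succ) fun r => hv _)
    convert h using 2
    push_cast
    ring

theorem fd_mem (i j : Fin (n + 2)) : T.fd j / T.x i ∈ T.OO ((d : ℤ) - 2) i := by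
  have hd := d_pos hF
  refine (mem_OO T _ i _).2 ⟨T.u i j, u_mem' T hF i j, ?_⟩
  unfold FF.u
  have h0 := T.x_ne i
  have h1 : T.x i ^ ((d : ℤ) - 2) = T.x i ^ (d - 1) / T.x i := by
    rw [eq_div_iff h0, ← zpow_natCast, ← zpow_add_one₀ h0]
    congr 1
    omega
  rw [h1]
  have h2 : T.x i ^ (d - 1) ≠ 0 := pow_ne_zero _ h0
  field_simp

theorem Ko_div' (pq : Fin (n + 2) × Fin (n + 2)) (i l : Fin (n + 2)) :
    T.Ko pq (T.x l / T.x i) ∈ T.OO ((d : ℤ) - 2) i := by
  have h0 := T.x_ne i
  have h1 : T.Ko pq (T.x l / T.x i) =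
      (T.fd pq.1 / T.x i * (if pq.2 = l then 1 else 0) - T.fd pq.2 / T.x i * (if pq.1 = l then 1 else 0)) -
      T.x l / T.x i * (T.fd pq.1 / T.x i * (if pq.2 = i then 1 else 0) -
        T.fd pq.2 / T.x i * (if pq.1 = i then 1 else 0)) := by
    rw [Derivation.leibniz_div, Ko_x' T hF, Ko_x' T hF]
    unfold FF.Dt
    simp only [smul_eq_mul]
    field_simp
    ring
  have hA : ∀ (a : T.L), a ∈ T.A i → ∀ v ∈ T.OO ((d : ℤ) - 2) i, a * v ∈ T.OO ((d : ℤ) - 2) i := by
    intro a ha v hv
    obtain ⟨b, hb, rfl⟩ := (mem_OO T _ i v).1 hv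
    exact (mem_OO T _ i _).2 ⟨a * b, mul_mem ha hb, by ring⟩
  have hite : ∀ (j a b : Fin (n + 2)), T.fd j / T.x i * (if a = b then 1 else 0) ∈ T.OO ((d : ℤ) - 2) i := by
    intro j a b
    split_ifs
    · rw [mul_one]
      exact fd_mem T hF i j
    · rw [mul_zero]
      exact zero_mem _
  rw [h1]
  exact sub_mem (sub_mem (hite _ _ _) (hite _ _ _))
    (hA _ (Algebra.subset_adjoin ⟨l, rfl⟩) _ (sub_mem (hite _ _ _) (hite _ _ _)))

end

end Pool.Agent.H94.UG
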